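import Pool.Agent.Helper11.PV.St

/-!
# Project PV: module SYM (all edges have the same influence)
-/

set_option autoImplicit false

namespace Pool.Agent.Helper17.PV

open Finset Pool.Agent.Helper82.CN Pool.Agent.Helper11.PV

/-- a permutation of the vertices acts on the pairs -/
private def s2 {n : ℕ} (π : Equiv.Perm (Fin n)) : Sym2 (Fin n) ≃ Sym2 (Fin n) where
  toFun := Sym2.map π
  invFun := Sym2.map π.symm
  left_inv z := by
    induction z using Sym2.ind with
    | _ a b => simp
  right_inv z := by
    induction z using Sym2.ind with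
    | _ a b => simp

private lemma PC_perm {n : ℕ} (π : Equiv.Perm (Fin n)) (G G' : SimpleGraph (Fin n))
    (h : ∀ u v, G'.Adj u v ↔ G.Adj (π u) (π v)) (U : Finset (Fin n)) (k : ℕ) (hU : PC G U k) :
    PC G' (U.map π.symm.toEmbedding) k := by
  obtain ⟨c, h1, h2⟩ := hU
  have h3 : ∀ v, v ∉ U.map π.symm.toEmbedding → π v ∉ U := by
    intro v hv hπ
    apply hv
    rw [Finset.mem_map]
    exact ⟨π v, hπ, by simp⟩
  exact ⟨fun v => c (π v), fun v hv => h1 _ (h3 v hv),
    fun u v hu hv huv => h2 _ _ (h3 u hu) (h3 v hv) ((h u v).mp huv)⟩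

private lemma Ph_perm {n : ℕ} (l : ℕ) (π : Equiv.Perm (Fin n)) (G G' : SimpleGraph (Fin n))
    (h : ∀ u v, G'.Adj u v ↔ G.Adj (π u) (π v)) : Ph l G' = Ph l G := by
  unfold Ph
  congr 1
  ext m
  constructor
  · rintro ⟨U, k, hU, rfl⟩
    refine ⟨U.map π.symm.symm.toEmbedding, k, PC_perm π.symm G' G ?_ U k hU, by
      rw [Finset.card_map]⟩
    intro u v
    rw [h]
    simp
  · rintro ⟨U, k, hU, rfl⟩
    exact ⟨U.map π.symm.toEmbedding, k, PC_perm π G G' h U k hU, by rw [Finset.card_map]⟩

private lemma PH_perm {n : ℕ} (l : ℕ) (π : Equiv.Perm (Fin n)) (η : Sym2 (Fin n) → Bool) :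
    PH l (fun i => η (s2 π i)) = PH l η := by
  unfold PH
  rw [Ph_perm l π (gr η) (gr fun i => η (s2 π i))]
  intro u v
  show (u ≠ v ∧ η (s2 π s(u, v)) = true) ↔ (π u ≠ π v ∧ η s(π u, π v) = true)
  rw [π.injective.ne_iff]
  rfl

theorem tSYM : Pool.Agent.Helper11.PV.StSYM := by
  intro p n l e e' he he'
  have key : ∃ π : Equiv.Perm (Fin n), s2 π e = e' := by
    induction e using Sym2.ind with
    | _ a b =>
      induction e' using Sym2.ind with
      | _ c d =>
        rw [Sym2.mk_isDiag_iff] at he he'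
        set b1 : Fin n := Equiv.swap a c b with hb1
        have h1 : c ≠ b1 := by
          have h2 : Equiv.swap a c b ≠ Equiv.swap a c a :=
            (Equiv.swap a c).injective.ne (Ne.symm he)
          rw [Equiv.swap_apply_left] at h2
          exact h2.symm
        refine ⟨Equiv.swap b1 d * Equiv.swap a c, ?_⟩
        show s((Equiv.swap b1 d * Equiv.swap a c) a, (Equiv.swap b1 d * Equiv.swap a c) b) = s(c, d)
        have h3 : (Equiv.swap b1 d * Equiv.swap a c) a = c := by
          rw [Equiv.Perm.mul_apply, Equiv.swap_apply_left,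
            Equiv.swap_apply_of_ne_of_ne h1 he']
        have h4 : (Equiv.swap b1 d * Equiv.swap a c) b = d := by
          rw [Equiv.Perm.mul_apply, ← hb1, Equiv.swap_apply_left]
        rw [h3, h4]
  obtain ⟨π, hπ⟩ := key
  rw [← EE_equiv p (s2 π) (DD (PH l) e)]
  congr 1
  funext ω
  have hupd : ∀ b : Bool, Function.update (fun i => ω (s2 π i)) e b =
      fun i => Function.update ω e' b (s2 π i) := by
    intro b
    funext i
    by_cases hi : i = e
    · rw [hi, hπ, Function.update_self, Function.update_self]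
    · have h5 : s2 π i ≠ e' := by
        rw [← hπ]
        exact (s2 π).injective.ne hi
      rw [Function.update_of_ne hi, Function.update_of_ne h5]
  unfold DD
  rw [hupd true, hupd false, PH_perm, PH_perm]

end Pool.Agent.Helper17.PV
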