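import Pool.Agent.Helper61.PV.St

/-!
# Module Crt of project PV: Chinese remainder theorem
-/

set_option autoImplicit false

namespace Pool.Agent.Helper17.PV

open Pool.Agent.Helper61.PV Finset

theorem ev_congr {d : ℕ} (c : Fin (d + 1) → ℤ) (q a b : ℤ) (h : q ∣ a - b) :
    q ∣ ev c a - ev c b := by
  unfold ev
  rw [← Finset.sum_sub_distrib]
  refine Finset.dvd_sum fun i _ => ?_
  rw [← mul_sub]
  exact Dvd.dvd.mul_left (h.trans (sub_dvd_pow_sub_pow a b _)) _

theorem ev_nat {d : ℕ} (c : Fin (d + 1) → ℤ) (hc : NFD c) (p : ℕ) (hp : p.Prime) :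
    ∃ k : ℕ, ¬ (p : ℤ) ∣ ev c k := by
  obtain ⟨k, hk⟩ := hc p hp.one_lt
  have hp0 : (p : ℤ) ≠ 0 := by exact_mod_cast hp.ne_zero
  refine ⟨(k % p).toNat, fun h => hk ?_⟩
  have h1 : (((k % p).toNat : ℕ) : ℤ) = k % p := Int.toNat_of_nonneg (Int.emod_nonneg _ hp0)
  rw [h1] at h
  have h2 : (p : ℤ) ∣ k - k % p := by
    rw [Int.emod_def]
    exact ⟨k / p, by ring⟩
  have h3 := ev_congr c p k (k % p) h2
  have h4 := dvd_add h3 h
  rwa [sub_add_cancel] at h4

theorem crt_aux {d : ℕ} (c : Fin (d + 1) → ℤ) (hc : NFD c) (s : Finset ℕ) :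
    (∀ p ∈ s, p.Prime) → ∃ m : ℕ, ∀ p ∈ s, ¬ (p : ℤ) ∣ ev c m := by
  induction s using Finset.induction_on with
  | empty =>
    intro _
    exact ⟨0, fun p hp => absurd hp (Finset.notMem_empty p)⟩
  | insert p s hps ih =>
    intro hs
    obtain ⟨m, hm⟩ := ih fun q hq => hs q (Finset.mem_insert_of_mem hq)
    have hp : p.Prime := hs p (Finset.mem_insert_self p s)
    obtain ⟨k, hk⟩ := ev_nat c hc p hp
    have hco : Nat.Coprime (∏ q ∈ s, q) p := by
      apply Nat.Coprime.prod_left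
      intro q hq
      rw [Nat.coprime_primes (hs q (Finset.mem_insert_of_mem hq)) hp]
      rintro rfl
      exact hps hq
    obtain ⟨x, hx1, hx2⟩ := Nat.chineseRemainder hco m k
    refine ⟨x, fun q hq => ?_⟩
    rw [Finset.mem_insert] at hq
    intro h
    rcases hq with rfl | hq
    · apply hk
      have h1 : (q : ℤ) ∣ (k : ℤ) - x := (Nat.modEq_iff_dvd).1 hx2
      have h2 := dvd_add (ev_congr c q k x h1) h
      rwa [sub_add_cancel] at h2
    · apply hm q hq
      have h0 : x ≡ m [MOD q] := hx1.of_dvd (Finset.dvd_prod_of_mem _ hq)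
      have h1 : (q : ℤ) ∣ (m : ℤ) - x := (Nat.modEq_iff_dvd).1 h0
      have h2 := dvd_add (ev_congr c q m x h1) h
      rwa [sub_add_cancel] at h2

theorem hCrt : StCrt := by
  intro d c W hW hc
  obtain ⟨m, hm⟩ := crt_aux c hc W.primeFactors fun p hp => Nat.prime_of_mem_primeFactors hp
  refine ⟨m, Nat.coprime_of_dvd ?_⟩
  intro p hp h1 h2
  exact hm p (Nat.mem_primeFactors.2 ⟨hp, h2, by omega⟩) (Int.natCast_dvd.2 h1)

end Pool.Agent.Helper17.PV
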