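import Pool.Agent.Helper61.PV.St

/-!
# Module Irr of project PV: irreducibility from one prime value
-/

set_option autoImplicit false

namespace Pool.Agent.Helper17.PV

open Pool.Agent.Helper61.PV Finset

theorem eval_pol {d : ℕ} (c : Fin (d + 1) → ℤ) (m : ℤ) : (pol c).eval m = ev c m := by
  unfold pol ev
  rw [Polynomial.eval_finsetSum]
  refine Finset.sum_congr rfl fun i _ => ?_
  simp

/-- complex roots are small -/
theorem root_bound {d : ℕ} (c : Fin (d + 1) → ℤ) (H κ : ℝ) (hκ : 0 < κ) (hH : 0 < H)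
    (hc : ∀ i, |(c i : ℝ)| ≤ H) (hd : κ * H ≤ c (Fin.last d)) (α : ℂ)
    (hα : ∑ i, (c i : ℂ) * α ^ (i : ℕ) = 0) : ‖α‖ ≤ 1 + 1 / κ := by
  by_contra hlt
  rw [not_le] at hlt
  have hk : 0 < 1 / κ := by positivity
  set t := ‖α‖ with ht
  have ht1 : 1 < t := by linarith
  rw [Fin.sum_univ_castSucc] at hα
  simp only [Fin.val_castSucc, Fin.val_last] at hα
  have h1 : (c (Fin.last d) : ℂ) * α ^ d = -∑ i : Fin d, (c i.castSucc : ℂ) * α ^ (i : ℕ) := by
    linear_combination hα
  have h2 : κ * H * t ^ d ≤ ∑ i : Fin d, H * t ^ (i : ℕ) := by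
    calc κ * H * t ^ d ≤ |(c (Fin.last d) : ℝ)| * t ^ d := by
          gcongr
          exact hd.trans (le_abs_self _)
      _ = ‖(c (Fin.last d) : ℂ) * α ^ d‖ := by
          rw [norm_mul, norm_pow, ← ht]
          congr 1
          exact (Complex.norm_intCast _).symm
      _ = ‖∑ i : Fin d, (c i.castSucc : ℂ) * α ^ (i : ℕ)‖ := by rw [h1, norm_neg]
      _ ≤ ∑ i : Fin d, ‖(c i.castSucc : ℂ) * α ^ (i : ℕ)‖ := norm_sum_le _ _
      _ ≤ ∑ i : Fin d, H * t ^ (i : ℕ) := by
          refine Finset.sum_le_sum fun i _ => ?_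
          rw [norm_mul, norm_pow, ← ht]
          gcongr
          have := hc i.castSucc
          simpa using this
  have h3 : ∑ i : Fin d, H * t ^ (i : ℕ) = H * ((t ^ d - 1) / (t - 1)) := by
    rw [← Finset.mul_sum, ← geom_sum_eq ht1.ne' d, Finset.sum_range]
  rw [h3] at h2
  have h4 : κ * t ^ d ≤ (t ^ d - 1) / (t - 1) := by
    have : H * (κ * t ^ d) ≤ H * ((t ^ d - 1) / (t - 1)) := by linarith
    exact le_of_mul_le_mul_left this hH
  rw [le_div_iff₀ (by linarith)] at h4
  have h5 : 1 < κ * (t - 1) := by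
    have : 1 / κ < t - 1 := by linarith
    rw [div_lt_iff₀ hκ] at this
    linarith
  have h6 : 0 < t ^ d := by positivity
  nlinarith

theorem unit_of_value {d : ℕ} (c : Fin (d + 1) → ℤ) (H κ : ℝ) (hκ : 0 < κ) (hH : 0 < H)
    (hc : ∀ i, |(c i : ℝ)| ≤ H) (hd : κ * H ≤ c (Fin.last d)) (m : ℕ) (hm : 3 + 1 / κ ≤ m)
    (g : Polynomial ℤ) (hg : g ∣ pol c) (h1 : (g.eval (m : ℤ)).natAbs = 1) : IsUnit g := by
  have hg0 : g ≠ 0 := by
    rintro rfl
    simp at h1
  set G : Polynomial ℂ := g.map (Int.castRingHom ℂ) with hG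
  have hlead : G.leadingCoeff = ((g.leadingCoeff : ℤ) : ℂ) := by
    rw [hG, Polynomial.leadingCoeff_map_of_injective (RingHom.injective_int _)]
    rfl
  have hdeg : G.natDegree = g.natDegree := by
    rw [hG, Polynomial.natDegree_map_eq_of_injective (RingHom.injective_int _)]
  have hsp : G.Splits := IsAlgClosed.splits G
  have hev : G.eval ((m : ℤ) : ℂ) = ((g.eval (m : ℤ) : ℤ) : ℂ) := by
    rw [hG, Polynomial.eval_intCast_map]
    rfl
  have hprod := hsp.eval_eq_prod_roots ((m : ℤ) : ℂ)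
  rw [hev] at hprod
  have hn : ‖((g.eval (m : ℤ) : ℤ) : ℂ)‖ = 1 := by
    rw [Complex.norm_intCast, ← Int.cast_abs, Int.abs_eq_natAbs, h1]
    simp
  rw [hprod, norm_mul, hlead] at hn
  have hl : 1 ≤ ‖((g.leadingCoeff : ℤ) : ℂ)‖ := by
    rw [Complex.norm_intCast, ← Int.cast_abs]
    have : 1 ≤ |g.leadingCoeff| := Int.one_le_abs (by simpa using hg0)
    exact_mod_cast this
  have hroot : ∀ α ∈ G.roots, 2 ≤ ‖((m : ℤ) : ℂ) - α‖ := by
    intro α hα
    have h2 : ‖α‖ ≤ 1 + 1 / κ := by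
      apply root_bound c H κ hκ hH hc hd
      have h3 : (pol c).eval₂ (Int.castRingHom ℂ) α = 0 := by
        obtain ⟨k, hk⟩ := hg
        rw [hk, Polynomial.eval₂_mul]
        have h4 : g.eval₂ (Int.castRingHom ℂ) α = 0 := by
          rw [← Polynomial.eval_map]
          exact Polynomial.isRoot_of_mem_roots hα
        rw [h4, zero_mul]
      unfold pol at h3
      rw [Polynomial.eval₂_finsetSum] at h3
      rw [← h3]
      refine Finset.sum_congr rfl fun i _ => ?_
      rw [Polynomial.eval₂_mul, Polynomial.eval₂_C, Polynomial.eval₂_X_pow, eq_intCast]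
    calc (2 : ℝ) ≤ m - ‖α‖ := by linarith
      _ = ‖((m : ℤ) : ℂ)‖ - ‖α‖ := by simp
      _ ≤ ‖((m : ℤ) : ℂ) - α‖ := norm_sub_norm_le _ _
  have hpr : (2 : ℝ) ^ (Multiset.card G.roots) ≤
      ‖(G.roots.map fun a => ((m : ℤ) : ℂ) - a).prod‖ := by
    have : ∀ s : Multiset ℂ, (∀ α ∈ s, 2 ≤ ‖((m : ℤ) : ℂ) - α‖) →
        (2 : ℝ) ^ (Multiset.card s) ≤ ‖(s.map fun a => ((m : ℤ) : ℂ) - a).prod‖ := by
      intro s
      induction s using Multiset.induction_on with
      | empty => simp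
      | cons a s ih =>
        intro hs
        rw [Multiset.card_cons, Multiset.map_cons, Multiset.prod_cons, norm_mul, pow_succ']
        have h5 := hs a (Multiset.mem_cons_self a s)
        have h6 := ih fun b hb => hs b (Multiset.mem_cons_of_mem hb)
        gcongr
    exact this _ hroot
  have hcard : Multiset.card G.roots = 0 := by
    by_contra hne
    have h7 : (2 : ℝ) ≤ 2 ^ (Multiset.card G.roots) := by
      calc (2 : ℝ) = 2 ^ 1 := by norm_num
        _ ≤ 2 ^ (Multiset.card G.roots) :=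
          pow_le_pow_right₀ (by norm_num) (Nat.one_le_iff_ne_zero.mpr hne)
    have h8 : 2 ≤ ‖((g.leadingCoeff : ℤ) : ℂ)‖ *
        ‖(G.roots.map fun a => ((m : ℤ) : ℂ) - a).prod‖ := by
      calc (2 : ℝ) = 1 * 2 := by norm_num
        _ ≤ _ := mul_le_mul hl (h7.trans hpr) (by norm_num) (by positivity)
    linarith
  have hnd : g.natDegree = 0 := by
    rw [← hdeg, hsp.natDegree_eq_card_roots, hcard]
  rw [Polynomial.eq_C_of_natDegree_eq_zero hnd] at h1 ⊢
  rw [Polynomial.eval_C] at h1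
  exact Polynomial.isUnit_C.2 (Int.isUnit_iff_natAbs_eq.2 h1)

theorem hIrr : StIrr := by
  intro d c H κ m hκ hH hc hd hm hp
  have hev : (pol c).eval (m : ℤ) = ev c m := eval_pol c m
  constructor
  · intro hu
    have h1 : IsUnit ((pol c).eval (m : ℤ)) := hu.map (Polynomial.evalRingHom (m : ℤ))
    rw [hev] at h1
    rcases Int.isUnit_iff.1 h1 with h | h <;> rw [h] at hp <;> revert hp <;> decide
  · intro g h hgh
    have h1 : g.eval (m : ℤ) * h.eval (m : ℤ) = ev c m := by
      rw [← hev, hgh, Polynomial.eval_mul]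
    have h2 : (g.eval (m : ℤ)).natAbs * (h.eval (m : ℤ)).natAbs = (ev c m).toNat := by
      rw [← Int.natAbs_mul, h1]
      have : 0 < ev c m := by
        by_contra hneg
        rw [Int.toNat_of_nonpos (by omega)] at hp
        exact Nat.not_prime_zero hp
      omega
    rw [← h2] at hp
    rcases Nat.prime_mul_iff.1 hp with ⟨-, h3⟩ | ⟨-, h3⟩
    · right
      exact unit_of_value c H κ hκ hH hc hd m hm h (hgh ▸ Dvd.intro_left g rfl) h3
    · left
      exact unit_of_value c H κ hκ hH hc hd m hm g (hgh ▸ Dvd.intro h rfl) h3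

end Pool.Agent.Helper17.PV
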